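import Pool.Agent.H11.NS.Targets

/-!
# Module CO of ns_modules: pairs of disjoint three-cycles are conjugate in the alternating group
-/

set_option autoImplicit false

open Equiv (Perm)

namespace Pool.Agent.H86.NS

open Pool.Agent.H11.NS

/-- an even permutation which conjugates the pair `{t, t'}` to the pair `{r, r'}` -/
theorem pair_conj (Ω : Type) [Fintype Ω] [DecidableEq Ω] (h8 : 8 ≤ Fintype.card Ω)
    (t t' r r' : Perm Ω) (ht : t.IsThreeCycle) (ht' : t'.IsThreeCycle)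
    (htt : Equiv.Perm.Disjoint t t') (hr : r.IsThreeCycle) (hr' : r'.IsThreeCycle)
    (hrr : Equiv.Perm.Disjoint r r') :
    ∃ y ∈ alternatingGroup Ω, (y * t * y⁻¹ = r ∧ y * t' * y⁻¹ = r') ∨
      (y * t * y⁻¹ = r' ∧ y * t' * y⁻¹ = r) := by
  have h1 : IsConj (t * t') (r * r') := by
    rw [Equiv.Perm.isConj_iff_cycleType_eq, htt.cycleType_mul, hrr.cycleType_mul]
    rw [Equiv.Perm.IsThreeCycle] at ht ht' hr hr'
    rw [ht, ht', hr, hr']
  obtain ⟨y₀, hy₀⟩ := isConj_iff.mp h1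
  have hneq : t ≠ t' := by
    rintro rfl
    have := Equiv.Perm.disjoint_refl_iff.mp htt
    exact ht.isCycle.ne_one this
  have hf1 : (t * t').cycleFactorsFinset = {t, t'} := by
    rw [htt.cycleFactorsFinset_mul_eq_union,
      Equiv.Perm.cycleFactorsFinset_eq_singleton_self_iff.mpr ht.isCycle,
      Equiv.Perm.cycleFactorsFinset_eq_singleton_self_iff.mpr ht'.isCycle]
    rfl
  have hf2 : (r * r').cycleFactorsFinset = {r, r'} := by
    rw [hrr.cycleFactorsFinset_mul_eq_union,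
      Equiv.Perm.cycleFactorsFinset_eq_singleton_self_iff.mpr hr.isCycle,
      Equiv.Perm.cycleFactorsFinset_eq_singleton_self_iff.mpr hr'.isCycle]
    rfl
  have hmem : ∀ c : Perm Ω, c ∈ ({t, t'} : Finset (Perm Ω)) →
      y₀ * c * y₀⁻¹ ∈ ({r, r'} : Finset (Perm Ω)) := by
    intro c hc
    rw [← hf1] at hc
    rw [← hf2, ← hy₀]
    exact (Equiv.Perm.mem_cycleFactorsFinset_conj (t * t') y₀ c).mpr hc
  have hdiff : y₀ * t * y₀⁻¹ ≠ y₀ * t' * y₀⁻¹ := by
    intro h
    exact hneq (mul_left_cancel (mul_right_cancel h))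
  have hcase : (y₀ * t * y₀⁻¹ = r ∧ y₀ * t' * y₀⁻¹ = r') ∨
      (y₀ * t * y₀⁻¹ = r' ∧ y₀ * t' * y₀⁻¹ = r) := by
    have e1 := hmem t (by simp)
    have e2 := hmem t' (by simp)
    rw [Finset.mem_insert, Finset.mem_singleton] at e1 e2
    rcases e1 with e1 | e1 <;> rcases e2 with e2 | e2
    · exact absurd (e1.trans e2.symm) hdiff
    · exact Or.inl ⟨e1, e2⟩
    · exact Or.inr ⟨e1, e2⟩
    · exact absurd (e1.trans e2.symm) hdiff
  by_cases hsg : Equiv.Perm.sign y₀ = 1
  · exact ⟨y₀, Equiv.Perm.mem_alternatingGroup.mpr hsg, hcase⟩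
  · have hsg' : Equiv.Perm.sign y₀ = -1 := (Int.units_eq_one_or _).resolve_left hsg
    -- two points outside the supports
    have hcard : 2 ≤ ((t.support ∪ t'.support)ᶜ).card := by
      have h2 : (t.support ∪ t'.support).card ≤ 6 := by
        refine (Finset.card_union_le _ _).trans ?_
        rw [ht.card_support, ht'.card_support]
      rw [Finset.card_compl]
      omega
    obtain ⟨p, hp, q, hq, hpq⟩ := Finset.one_lt_card.mp hcard
    rw [Finset.mem_compl, Finset.mem_union, not_or, Equiv.Perm.notMem_support,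
      Equiv.Perm.notMem_support] at hp hq
    have hcomm : ∀ c : Perm Ω, c p = p → c q = q →
        Equiv.swap p q * c * (Equiv.swap p q)⁻¹ = c := by
      intro c hp' hq'
      have h3 : Equiv.swap p q * c = c * Equiv.swap p q := by
        have h4 := Equiv.mul_swap_eq_swap_mul c p q
        rw [hp', hq'] at h4
        exact h4.symm
      rw [h3, mul_inv_cancel_right]
    refine ⟨y₀ * Equiv.swap p q, ?_, ?_⟩
    · rw [Equiv.Perm.mem_alternatingGroup, Equiv.Perm.sign_mul, hsg', Equiv.Perm.sign_swap hpq]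
      simp
    · have h5 : ∀ c : Perm Ω, c p = p → c q = q →
          (y₀ * Equiv.swap p q) * c * (y₀ * Equiv.swap p q)⁻¹ = y₀ * c * y₀⁻¹ := by
        intro c hp' hq'
        calc (y₀ * Equiv.swap p q) * c * (y₀ * Equiv.swap p q)⁻¹
            = y₀ * (Equiv.swap p q * c * (Equiv.swap p q)⁻¹) * y₀⁻¹ := by group
          _ = y₀ * c * y₀⁻¹ := by rw [hcomm c hp' hq']
      rw [h5 t hp.1 hq.1, h5 t' hp.2 hq.2]
      exact hcase

theorem transport (Ω : Type) [Fintype Ω] [DecidableEq Ω] (F W : Type) [Field F]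
    [AddCommGroup W] [Module F W] (ρ : alternatingGroup Ω →* Module.End F W)
    (t t' r r' y : alternatingGroup Ω) (h1 : y * t * y⁻¹ = r) (h2 : y * t' * y⁻¹ = r')
    (h : ∀ v, ρ t (ρ t' v) - ρ t v - ρ t' v + v = 0) :
    ∀ v, ρ r (ρ r' v) - ρ r v - ρ r' v + v = 0 := by
  intro v
  have hy : ∀ w, ρ y⁻¹ (ρ y w) = w := by
    intro w
    rw [← Module.End.mul_apply, ← map_mul, inv_mul_cancel, map_one, Module.End.one_apply]
  have hy' : ∀ w, ρ y (ρ y⁻¹ w) = w := by
    intro w
    rw [← Module.End.mul_apply, ← map_mul, mul_inv_cancel, map_one, Module.End.one_apply]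
  have e : ∀ s : alternatingGroup Ω, ∀ w, ρ (y * s * y⁻¹) w = ρ y (ρ s (ρ y⁻¹ w)) := by
    intro s w
    rw [map_mul, map_mul, Module.End.mul_apply, Module.End.mul_apply]
  rw [← h1, ← h2, e, e, e, hy]
  have h3 := congrArg (ρ y) (h (ρ y⁻¹ v))
  rw [map_add, map_sub, map_sub, map_zero, hy'] at h3
  exact h3

theorem pf_co : T_CO := by
  intro Ω _ _ F W _ _ _ ρ h8 t t' r r' ht ht' htt hr hr' hrr h
  obtain ⟨y, hy, hcase⟩ := pair_conj Ω h8 t t' r r' ht ht' htt hr hr' hrr
  rcases hcase with ⟨h1, h2⟩ | ⟨h1, h2⟩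
  · exact transport Ω F W ρ t t' r r' ⟨y, hy⟩ (Subtype.ext h1) (Subtype.ext h2) h
  · have h3 := transport Ω F W ρ t t' r' r ⟨y, hy⟩ (Subtype.ext h1) (Subtype.ext h2) h
    have hc : r * r' = r' * r := Subtype.ext hrr.commute
    intro v
    have h4 := h3 v
    have h5 : ρ r (ρ r' v) = ρ r' (ρ r v) := by
      rw [← Module.End.mul_apply, ← Module.End.mul_apply, ← map_mul, ← map_mul, hc]
    rw [h5, sub_right_comm]
    exact h4

end Pool.Agent.H86.NS
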