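import Pool.Agent.H11.NS.Targets

/-!
# Module FI of ns_modules: an infinite simple group has no proper subgroup of finite index
-/

set_option autoImplicit false

namespace Pool.Agent.H86.NS

open Pool.Agent.H11.NS

theorem pf_fi : T_FI := by
  intro G _ _ _ H hH
  have : H.FiniteIndex := ⟨hH⟩
  have hN : H.normalCore.FiniteIndex := inferInstance
  rcases IsSimpleGroup.eq_bot_or_eq_top_of_normal H.normalCore inferInstance with h | h
  · exfalso
    have := hN.index_ne_zero
    rw [h, Subgroup.index_bot, Nat.card_eq_zero_of_infinite] at this
    exact this rfl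
  · exact top_le_iff.mp (h ▸ H.normalCore_le)

end Pool.Agent.H86.NS
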