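import Pool.Agent.H11.NS.Targets

/-!
# Module FIN of ns_modules: assembly
-/

set_option autoImplicit false

open Equiv (Perm)

namespace Pool.Agent.H86.NS

open Pool.Agent.H11.NS

theorem alt_not_solvable (n : ℕ) (hn : 5 ≤ n) :
    ¬ Group.IsSolvable (alternatingGroup (Fin n)) := by
  intro h
  have hs : IsSimpleGroup (alternatingGroup (Fin n)) :=
    alternatingGroup.isSimpleGroup (by simpa using hn)
  have hc := IsSimpleGroup.comm_iff_isSolvable.mpr h
  have h4 : IsMulCommutative (alternatingGroup (Fin n)) := ⟨⟨hc⟩⟩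
  have h5 := alternatingGroup.isMulCommutative_iff_card_le_three.mp h4
  rw [Nat.card_fin] at h5
  omega

theorem card_alt_ge (n : ℕ) (hn : 4 ≤ n) : n ≤ Nat.card (alternatingGroup (Fin n)) := by
  have : Nontrivial (Fin n) := Fin.nontrivial_iff_two_le.mpr (by omega)
  have h := two_mul_nat_card_alternatingGroup (α := Fin n)
  rw [Nat.card_perm, Nat.card_fin] at h
  have h2 : 2 * n ≤ n.factorial := by
    obtain ⟨m, rfl⟩ : ∃ m, n = m + 1 := ⟨n - 1, by omega⟩
    rw [Nat.factorial_succ]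
    have h3 : 2 ≤ m.factorial := le_trans (by omega : 2 ≤ m) (Nat.self_le_factorial m)
    nlinarith
  omega

theorem infinite_of_cover (G : Type) [Group G] (π : Finset ℕ) (hC : Cover G π) :
    Infinite G := by
  by_contra hinf
  rw [not_infinite_iff_finite] at hinf
  obtain ⟨L, n, φ, ⟨_, hφ, _⟩, _, hk⟩ := hC ∅ (Nat.card G + 4)
  have h1 : n ≤ Nat.card (alternatingGroup (Fin n)) := card_alt_ge n (by omega)
  have h2 : Nat.card (alternatingGroup (Fin n)) ≤ Nat.card L :=
    Nat.card_le_card_of_surjective φ hφ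
  have h3 : Nat.card L ≤ Nat.card G := Subgroup.card_le_card_group L
  omega

theorem pf_fin : T_FI → T_F1 → T_F2 → T_F3 → T_F4 → T_UA → T_FIN := by
  intro hFI hF1 hF2 hF3 hF4 hUA G _ _ π hC hAS
  by_cases hU : ∀ x : G, x ≠ 1 → ∀ B : ℕ, ∃ (F : Finset G) (k : ℕ), ∀ (L : Subgroup G) (n : ℕ)
      (φ : L →* alternatingGroup (Fin n)), Good π L n φ → (∀ y ∈ F, y ∈ L) → k ≤ n →
        ∀ hxL : x ∈ L, B < (φ ⟨x, hxL⟩ : Perm (Fin n)).support.card
  · exact hUA G π hC hU hAS
  · push Not at hU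
    obtain ⟨x₀, hx₀, B₀, hB₀⟩ := hU
    obtain ⟨I, U, n, act, hmul, hne, hbd⟩ := hF3 G π hC x₀ B₀ (by
      intro F k
      obtain ⟨L, n, φ, hg, hF, hk, hx, hle⟩ := hB₀ F k
      exact ⟨L, n, φ, hg, hF, hk, hx, hle⟩)
    have hinf : Infinite G := infinite_of_cover G π hC
    have hfi : ∀ H : Subgroup G, H.index ≠ 0 → H = ⊤ := fun H hH => hFI G H hH
    have hbd' := hF1 G I U n act hmul x₀ hx₀ B₀ hbd
    have hsep := hF2 G hfi I U n act hmul hne hbd'
    obtain ⟨L₀, n₀, φ, ⟨hfin, hφ, _⟩, _, hk⟩ := hC ∅ 5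
    have hLfin : (L₀ : Set G).Finite := Set.toFinite _
    have hcl : Subgroup.closure ((hLfin.toFinset : Finset G) : Set G) = L₀ := by
      rw [Set.Finite.coe_toFinset, Subgroup.closure_eq]
    have hns : ¬ Group.IsSolvable (Subgroup.closure ((hLfin.toFinset : Finset G) : Set G)) := by
      rw [hcl]
      intro hs
      exact alt_not_solvable n₀ hk (Group.isSolvable_of_surjective hφ)
    obtain ⟨g, hg⟩ := exists_ne (1 : G)
    obtain ⟨H, hH, hHs⟩ := hAS g hg
    exact hF4 G hsep hLfin.toFinset hns g H hH hHs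

end Pool.Agent.H86.NS
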