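import Pool.Agent.H11.NS.Targets

/-!
# Module U1 of ns_modules: derived series of a finite `p`-group and subgroups of small index
-/

set_option autoImplicit false

namespace Pool.Agent.H86.NS

open Pool.Agent.H11.NS

/-- a maximal subgroup of a finite `p`-group is normal of index `p` and contains the commutator
subgroup -/
theorem coatom_facts (p : ℕ) [Fact p.Prime] (R : Type) [Group R] [Finite R]
    (hR : IsPGroup p R) (M : Subgroup R) (hM : IsCoatom M) :
    M.Normal ∧ M.index = p := by
  have hnil : Group.IsNilpotent R := hR.isNilpotent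
  have hnorm : M.Normal :=
    Subgroup.NormalizerCondition.normal_of_coatom M Group.normalizerCondition_of_isNilpotent hM
  refine ⟨hnorm, ?_⟩
  obtain ⟨k, hk⟩ := IsPGroup.index hR M
  have hk0 : k ≠ 0 := by
    rintro rfl
    rw [pow_zero] at hk
    exact hM.1 (Subgroup.index_eq_one.mp hk)
  have hQ : IsPGroup p (R ⧸ M) := hR.to_quotient M
  have hcard : Nat.card (R ⧸ M) = p ^ k := hk
  obtain ⟨K, hKcard⟩ := Sylow.exists_subgroup_card_pow_prime (G := R ⧸ M) p (n := 1)
    (by rw [hcard]; exact pow_dvd_pow p (Nat.one_le_iff_ne_zero.mpr hk0))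
  rw [pow_one] at hKcard
  have hle : M ≤ K.comap (QuotientGroup.mk' M) := by
    intro x hx
    rw [Subgroup.mem_comap]
    have : QuotientGroup.mk' M x = 1 := (QuotientGroup.eq_one_iff x).mpr hx
    rw [this]
    exact K.one_mem
  rcases hM.le_iff.mp hle with h | h
  · -- the comap is everything
    have hK : K = ⊤ := by
      rw [eq_top_iff]
      intro y _
      obtain ⟨x, rfl⟩ := QuotientGroup.mk'_surjective M y
      have : x ∈ K.comap (QuotientGroup.mk' M) := by rw [h]; trivial
      exact this
    have h2 : Nat.card K = Nat.card (R ⧸ M) := by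
      rw [hK]; exact Nat.card_congr (Equiv.Set.univ _)
    rw [Subgroup.index, ← h2, hKcard]
  · exfalso
    have hK : K = ⊥ := by
      rw [eq_bot_iff]
      intro y hy
      obtain ⟨x, rfl⟩ := QuotientGroup.mk'_surjective M y
      have : x ∈ K.comap (QuotientGroup.mk' M) := hy
      rw [h] at this
      rw [Subgroup.mem_bot]
      exact (QuotientGroup.eq_one_iff x).mpr this
    rw [hK, Subgroup.card_bot] at hKcard
    exact (Fact.out : p.Prime).one_lt.ne hKcard

theorem comm_le (p : ℕ) [Fact p.Prime] (R : Type) [Group R] [Finite R]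
    (M : Subgroup R) [M.Normal] (hi : M.index = p) : commutator R ≤ M := by
  have hcard : Nat.card (R ⧸ M) = p := hi
  have hcyc : IsCyclic (R ⧸ M) := isCyclic_of_prime_card hcard
  have hcomm : ∀ a b : R ⧸ M, a * b = b * a :=
    (IsCyclic.isMulCommutative (α := R ⧸ M)).is_comm.comm
  rw [commutator_def, Subgroup.commutator_le]
  intro a _ b _
  rw [← QuotientGroup.eq_one_iff (N := M)]
  have h := hcomm (a : R ⧸ M) (b : R ⧸ M)
  rw [commutatorElement_def]
  have h2 : ((a * b * a⁻¹ * b⁻¹ : R) : R ⧸ M) = (a : R ⧸ M) * b * (a : R ⧸ M)⁻¹ * (b : R ⧸ M)⁻¹ :=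
    rfl
  rw [h2, h]
  group

theorem derived_le (R : Type) [Group R] (M : Subgroup R) (hM : commutator R ≤ M) (j : ℕ) :
    derivedSeries R (j + 1) ≤ (derivedSeries M j).map M.subtype := by
  induction j with
  | zero =>
    rw [derivedSeries_succ, derivedSeries_zero, derivedSeries_zero, ← commutator_def]
    intro x hx
    exact ⟨⟨x, hM hx⟩, trivial, rfl⟩
  | succ j ih =>
    rw [derivedSeries_succ R (j + 1), derivedSeries_succ M j, Subgroup.map_commutator]
    exact Subgroup.commutator_mono ih ih

theorem pf_u1 : T_U1 := by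
  intro p _ k
  have hp : p.Prime := Fact.out
  induction k with
  | zero =>
    intro R _ _ hR U hU
    rw [pow_zero] at hU
    have h0 : U.index ≠ 0 := Subgroup.FiniteIndex.index_ne_zero
    have h1 : U.index = 1 := by omega
    rw [Subgroup.index_eq_one.mp h1]
    exact le_top
  | succ k ih =>
    intro R _ _ hR U hU
    rcases eq_top_or_exists_le_coatom U with h | ⟨M, hM, hUM⟩
    · rw [h]; exact le_top
    · obtain ⟨hn, hi⟩ := coatom_facts p R hR M hM
      have := hn
      have hcomm : commutator R ≤ M := comm_le p R M hi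
      have h1 : (U.subgroupOf M).index * M.index = U.index :=
        Subgroup.relIndex_mul_index hUM
      rw [hi] at h1
      have h2 : (U.subgroupOf M).index ≤ p ^ k := by
        have h3 : (U.subgroupOf M).index * p ≤ p ^ k * p := by
          rw [h1, ← pow_succ]; exact hU
        exact Nat.le_of_mul_le_mul_right h3 hp.pos
      have h4 : derivedSeries M k ≤ U.subgroupOf M :=
        ih M (hR.to_subgroup M) (U.subgroupOf M) h2
      refine (derived_le R M hcomm k).trans ?_
      rw [Subgroup.map_le_iff_le_comap]
      exact h4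

end Pool.Agent.H86.NS
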